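import Mathlib

set_option autoImplicit false

namespace Pool.Agent.Dao

open IsLocalRing

/-- The free module of rank ten with basis `1, u, …, u⁴, v, …, v⁴, w`. -/
@[ext] structure T {A : Type} (p q : A) : Type where
  a : A
  u1 : A
  u2 : A
  u3 : A
  u4 : A
  v1 : A
  v2 : A
  v3 : A
  v4 : A
  w : A

variable {A : Type} [CommRing A] {p q : A}

instance : Zero (T p q) := ⟨⟨0, 0, 0, 0, 0, 0, 0, 0, 0, 0⟩⟩
instance : One (T p q) := ⟨⟨1, 0, 0, 0, 0, 0, 0, 0, 0, 0⟩⟩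
instance : Add (T p q) := ⟨fun x y => ⟨x.a + y.a, x.u1 + y.u1, x.u2 + y.u2, x.u3 + y.u3,
  x.u4 + y.u4, x.v1 + y.v1, x.v2 + y.v2, x.v3 + y.v3, x.v4 + y.v4, x.w + y.w⟩⟩
instance : Neg (T p q) := ⟨fun x => ⟨-x.a, -x.u1, -x.u2, -x.u3, -x.u4, -x.v1, -x.v2, -x.v3,
  -x.v4, -x.w⟩⟩
instance : Mul (T p q) := ⟨fun x y => ⟨x.a * y.a, x.a * y.u1 + x.u1 * y.a,
  x.a * y.u2 + x.u1 * y.u1 + x.u2 * y.a, x.a * y.u3 + x.u1 * y.u2 + x.u2 * y.u1 + x.u3 * y.a,
  x.a * y.u4 + x.u1 * y.u3 + x.u2 * y.u2 + x.u3 * y.u1 + x.u4 * y.a, x.a * y.v1 + x.v1 * y.a,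
  x.a * y.v2 + x.v1 * y.v1 + x.v2 * y.a, x.a * y.v3 + x.v1 * y.v2 + x.v2 * y.v1 + x.v3 * y.a,
  x.a * y.v4 + x.v1 * y.v3 + x.v2 * y.v2 + x.v3 * y.v1 + x.v4 * y.a,
  x.a * y.w + x.w * y.a + p * (x.u1 * y.u4 + x.u2 * y.u3 + x.u3 * y.u2 + x.u4 * y.u1) +
    q * (x.v1 * y.v4 + x.v2 * y.v3 + x.v3 * y.v2 + x.v4 * y.v1)⟩⟩

theorem zero_def : (0 : T p q) = ⟨0, 0, 0, 0, 0, 0, 0, 0, 0, 0⟩ := rfl
theorem one_def : (1 : T p q) = ⟨1, 0, 0, 0, 0, 0, 0, 0, 0, 0⟩ := rfl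
theorem add_def (x y : T p q) : x + y = ⟨x.a + y.a, x.u1 + y.u1, x.u2 + y.u2, x.u3 + y.u3,
  x.u4 + y.u4, x.v1 + y.v1, x.v2 + y.v2, x.v3 + y.v3, x.v4 + y.v4, x.w + y.w⟩ := rfl
theorem neg_def (x : T p q) : -x = ⟨-x.a, -x.u1, -x.u2, -x.u3, -x.u4, -x.v1, -x.v2, -x.v3,
  -x.v4, -x.w⟩ := rfl
theorem mul_def (x y : T p q) : x * y = ⟨x.a * y.a, x.a * y.u1 + x.u1 * y.a,
  x.a * y.u2 + x.u1 * y.u1 + x.u2 * y.a, x.a * y.u3 + x.u1 * y.u2 + x.u2 * y.u1 + x.u3 * y.a,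
  x.a * y.u4 + x.u1 * y.u3 + x.u2 * y.u2 + x.u3 * y.u1 + x.u4 * y.a, x.a * y.v1 + x.v1 * y.a,
  x.a * y.v2 + x.v1 * y.v1 + x.v2 * y.a, x.a * y.v3 + x.v1 * y.v2 + x.v2 * y.v1 + x.v3 * y.a,
  x.a * y.v4 + x.v1 * y.v3 + x.v2 * y.v2 + x.v3 * y.v1 + x.v4 * y.a,
  x.a * y.w + x.w * y.a + p * (x.u1 * y.u4 + x.u2 * y.u3 + x.u3 * y.u2 + x.u4 * y.u1) +
    q * (x.v1 * y.v4 + x.v2 * y.v3 + x.v3 * y.v2 + x.v4 * y.v1)⟩ := rfl

instance : CommRing (T p q) := CommRing.ofMinimalAxioms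
  (fun x y z => by ext <;> simp only [add_def] <;> ring)
  (fun x => by ext <;> simp only [add_def, zero_def] <;> ring)
  (fun x => by ext <;> simp only [add_def, zero_def, neg_def] <;> ring)
  (fun x y z => by ext <;> simp only [mul_def] <;> ring)
  (fun x y => by ext <;> simp only [mul_def] <;> ring)
  (fun x => by ext <;> simp only [mul_def, one_def] <;> ring)
  (fun x y z => by ext <;> simp only [mul_def, add_def] <;> ring)

/-- The scalars. -/
def sc : A →+* T p q where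
  toFun a := ⟨a, 0, 0, 0, 0, 0, 0, 0, 0, 0⟩
  map_one' := rfl
  map_zero' := rfl
  map_mul' x y := by ext <;> simp only [mul_def] <;> ring
  map_add' x y := by ext <;> simp only [add_def] <;> ring

theorem sc_mul (c : A) (x : T p q) : sc c * x = ⟨c * x.a, c * x.u1, c * x.u2, c * x.u3, c * x.u4,
    c * x.v1, c * x.v2, c * x.v3, c * x.v4, c * x.w⟩ := by
  ext <;> simp [mul_def, sc]

/-- The projection to the scalars. -/
def pr : T p q →+* A where
  toFun x := x.a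
  map_one' := rfl
  map_zero' := rfl
  map_mul' _ _ := rfl
  map_add' _ _ := rfl

/-- The generators. -/
def U : T p q := ⟨0, 1, 0, 0, 0, 0, 0, 0, 0, 0⟩
/-- The generators. -/
def V : T p q := ⟨0, 0, 0, 0, 0, 1, 0, 0, 0, 0⟩
/-- The generators. -/
def W : T p q := ⟨0, 0, 0, 0, 0, 0, 0, 0, 0, 1⟩

theorem U5 : (U : T p q) ^ 5 = sc p * W := by
  ext <;> simp [pow_succ, mul_def, sc, U, W, one_def]

theorem V5 : (V : T p q) ^ 5 = sc q * W := by
  ext <;> simp [pow_succ, mul_def, sc, V, W, one_def]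

theorem W_mul (x : T p q) : W * x = sc x.a * W := by
  ext <;> simp [mul_def, sc, W]

theorem mul6 {x1 x2 x3 x4 x5 x6 : T p q} (h1 : x1.a = 0) (h2 : x2.a = 0) (h3 : x3.a = 0)
    (h4 : x4.a = 0) (h5 : x5.a = 0) (h6 : x6.a = 0) : x1 * x2 * x3 * x4 * x5 * x6 = 0 := by
  ext <;> simp [mul_def, zero_def, *]

theorem ker6 : RingHom.ker (pr : T p q →+* A) ^ 6 = ⊥ := by
  have h : ∀ {I J : Ideal (T p q)} {P : T p q → Prop}, (∀ x y, P x → P y → P (x + y)) →
      (∀ x ∈ I, ∀ y ∈ J, P (x * y)) → ∀ z ∈ I * J, P z := fun h1 h2 z hz =>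
    Submodule.mul_induction_on hz h2 h1
  set N := RingHom.ker (pr : T p q →+* A)
  rw [eq_bot_iff, show N ^ 6 = N * N * N * N * N * N by ring, Ideal.mul_le]
  intro z hz x6 h6
  refine h (P := fun z => z * x6 ∈ (⊥ : Ideal _)) (fun x y hx hy => by
    rw [add_mul]; exact add_mem hx hy) (fun z hz x5 h5 => ?_) z hz
  refine h (P := fun z => z * x5 * x6 ∈ (⊥ : Ideal _)) (fun x y hx hy => by
    simp only [add_mul]; exact add_mem hx hy) (fun z hz x4 h4 => ?_) z hz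
  refine h (P := fun z => z * x4 * x5 * x6 ∈ (⊥ : Ideal _)) (fun x y hx hy => by
    simp only [add_mul]; exact add_mem hx hy) (fun z hz x3 h3 => ?_) z hz
  refine h (P := fun z => z * x3 * x4 * x5 * x6 ∈ (⊥ : Ideal _)) (fun x y hx hy => by
    simp only [add_mul]; exact add_mem hx hy) (fun x1 h1 x2 h2 => ?_) z hz
  exact mul6 h1 h2 h3 h4 h5 h6

theorem unit_of {x : T p q} (h : IsUnit x.a) : IsUnit x := by
  have h1 : x = sc x.a + (x - sc x.a) := by ring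
  have h2 : x - sc x.a ∈ RingHom.ker (pr : T p q →+* A) := by
    rw [RingHom.mem_ker, map_sub]
    exact sub_self _
  rw [h1]
  refine IsNilpotent.isUnit_add_left_of_commute ⟨6, ?_⟩ (h.map sc) (Commute.all _ _)
  simpa [ker6] using Ideal.pow_mem_pow h2 6

instance [IsLocalRing A] : IsLocalRing (T p q) :=
  have : Nontrivial (T p q) := (pr : T p q →+* A).domain_nontrivial
  IsLocalRing.of_isUnit_or_isUnit_one_sub_self fun x =>
    (isUnit_or_isUnit_one_sub_self x.a).imp unit_of fun h => unit_of (by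
      change IsUnit (pr (1 - x))
      rwa [map_sub, map_one])

theorem mem_max [IsLocalRing A] {x : T p q} : x ∈ maximalIdeal (T p q) ↔ x.a ∈ maximalIdeal A :=
  not_congr ⟨fun h => h.map pr, unit_of⟩

instance [IsNoetherianRing A] : IsNoetherianRing (T p q) := by
  let := (sc : A →+* T p q).toAlgebra
  have : Module.Finite A (T p q) := by
    classical
    refine ⟨⟨{1, U, U ^ 2, U ^ 3, U ^ 4, V, V ^ 2, V ^ 3, V ^ 4, W}, eq_top_iff.2 fun x _ => ?_⟩⟩
    have : x = x.a • 1 + x.u1 • U + x.u2 • U ^ 2 + x.u3 • U ^ 3 + x.u4 • U ^ 4 + x.v1 • V +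
        x.v2 • V ^ 2 + x.v3 • V ^ 3 + x.v4 • V ^ 4 + x.w • W := by
      simp only [Algebra.smul_def]
      ext <;> simp [RingHom.algebraMap_toAlgebra, pow_succ, mul_def, add_def, sc, U, V, W, one_def]
    rw [this]
    repeat' refine add_mem ?_ ?_
    all_goals exact Submodule.smul_mem _ _ (Submodule.subset_span (by simp))
  exact IsNoetherianRing.of_finite A _

theorem dim_zero {R : Type} [CommRing R] [IsLocalRing R] {J : Ideal R} {n : ℕ}
    (h : maximalIdeal R ^ n ≤ J) (hJ : J ≠ ⊤) : ringKrullDim (R ⧸ J) = 0 := by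
  have := Ideal.Quotient.nontrivial_iff.2 hJ
  rw [← ringKrullDimZero_iff_ringKrullDim_eq_zero, Ring.krullDimLE_zero_iff]
  intro P hP
  have h1 : (P.comap (Ideal.Quotient.mk J)).IsPrime := Ideal.comap_isPrime _ _
  have h2 : maximalIdeal R ≤ P.comap (Ideal.Quotient.mk J) :=
    h1.le_of_pow_le (h.trans (Ideal.mk_ker.ge.trans (Ideal.ker_le_comap _)))
  have h3 := (maximalIdeal.isMaximal R).eq_of_le h1.ne_top h2
  exact Ideal.isMaximal_of_isIntegral_of_isMaximal_comap (R := R) _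
    (h3 ▸ maximalIdeal.isMaximal R :)

theorem two_gen {R : Type} [CommRing R] [IsLocalRing R] {x y : R} {J : Ideal R}
    (h : J ≤ Ideal.span {x, y}) : Ideal.span {x, y} ≤ J ∨
      ∃ l ∈ J, J ≤ Ideal.span {l} ⊔ maximalIdeal R * Ideal.span {x, y} := by
  have key : ∀ {x y a b : R}, J ≤ Ideal.span {x, y} → IsUnit a → a * x + b * y ∈ J →
      Ideal.span {x, y} ≤ J ∨
      ∃ l ∈ J, J ≤ Ideal.span {l} ⊔ maximalIdeal R * Ideal.span {x, y} := by
    rintro x y _ b h ⟨a, rfl⟩ h0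
    by_cases h1 : J ≤ Ideal.span {a * x + b * y} ⊔ maximalIdeal R * Ideal.span {x, y}
    · exact Or.inr ⟨_, h0, h1⟩
    obtain ⟨j, hj, h2⟩ := SetLike.not_le_iff_exists.1 h1
    obtain ⟨c, d, rfl⟩ := Ideal.mem_span_pair.1 (h hj)
    have e : c * x + d * y = c * a.inv * (a * x + b * y) + (d - c * a.inv * b) * y := by
      linear_combination (-c * x) * a.inv_val
    have h3 : IsUnit (d - c * a.inv * b) := by
      by_contra h3
      exact h2 (e ▸ add_mem (Ideal.mem_sup_left (Ideal.mul_mem_left _ _ (Ideal.subset_span rfl)))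
        (Ideal.mem_sup_right (Ideal.mul_mem_mul h3 (Ideal.subset_span (by simp)))))
    have h4 : y ∈ J := (Ideal.unit_mul_mem_iff_mem J h3).1 (by
      have := sub_mem hj (J.mul_mem_left (c * a.inv) h0)
      rwa [e, add_sub_cancel_left] at this)
    have h5 : x ∈ J := (Ideal.unit_mul_mem_iff_mem J a.isUnit).1 (by
      simpa using sub_mem h0 (J.mul_mem_left b h4))
    exact Or.inl (Ideal.span_le.2 (Set.insert_subset h5 (Set.singleton_subset_iff.2 h4)))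
  by_cases h1 : J ≤ maximalIdeal R * Ideal.span {x, y}
  · exact Or.inr ⟨0, zero_mem _, h1.trans le_sup_right⟩
  obtain ⟨j, hj, h2⟩ := SetLike.not_le_iff_exists.1 h1
  obtain ⟨c, d, rfl⟩ := Ideal.mem_span_pair.1 (h hj)
  by_cases h3 : IsUnit c
  · exact key h h3 hj
  by_cases h4 : IsUnit d
  · rw [Set.pair_comm] at h ⊢
    exact key h h4 (add_comm (c * x) _ ▸ hj)
  exact absurd (add_mem (Ideal.mul_mem_mul h3 (Ideal.subset_span (by simp)))
    (Ideal.mul_mem_mul h4 (Ideal.subset_span (by simp)))) h2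

theorem min_red {R : Type} [CommRing R] [IsLocalRing R] [IsNoetherianRing R]
    (hd : ringKrullDim R = 2) {x y : R} (hI : Ideal.span {x, y} ≤ maximalIdeal R) {J : Ideal R}
    (h : J ≤ Ideal.span {x, y}) {k : ℕ} (hk : J * maximalIdeal R ^ k = maximalIdeal R ^ (k + 1)) :
    Ideal.span {x, y} ≤ J := by
  refine (two_gen h).resolve_right fun ⟨l, hl, h1⟩ => ?_
  have h2 : maximalIdeal R ^ (k + 1) ≤ Ideal.span {l} := by
    refine Submodule.le_of_le_smul_of_le_jacobson_bot (IsNoetherian.noetherian _)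
      (maximalIdeal_le_jacobson _) (hk.ge.trans ((Ideal.mul_mono_left h1).trans ?_))
    rw [Ideal.sup_mul, smul_eq_mul, mul_assoc, pow_succ']
    exact sup_le_sup Ideal.mul_le_left (Ideal.mul_mono_right (Ideal.mul_mono_left hI))
  have h3 : Ideal.span {l} ≠ ⊤ := fun h3 => (maximalIdeal.isMaximal R).ne_top
    (top_le_iff.1 (h3.ge.trans ((Ideal.span_singleton_le_iff_mem _).2 (hI (h hl)))))
  have h4 := ringKrullDim_le_ringKrullDim_quotient_add_spanFinrank (Ideal.span {l})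
    (by rw [ringJacobson_eq_maximalIdeal]; exact le_maximalIdeal h3)
  rw [hd, dim_zero h2 h3, zero_add] at h4
  have h5 : (Ideal.span {l}).spanFinrank ≤ 1 := by
    simpa using Submodule.spanFinrank_span_le_ncard_of_finite (R := R) (Set.finite_singleton l)
  have h6 : ((2 : ℕ) : WithBot ℕ∞) ≤ ((Ideal.span {l}).spanFinrank : ℕ) := h4
  have := Nat.cast_le.1 h6
  omega

end Pool.Agent.Dao
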