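import Pool.Agent.H.MP_c61c44_al.A

set_option autoImplicit false

namespace Pool.Agent.Dao

open IsLocalRing Pointwise

variable {A : Type} [CommRing A] [IsLocalRing A] {x y : A}

theorem sc_mem (hn : maximalIdeal A = Ideal.span {x, y}) {p q a : A} (h : a ∈ maximalIdeal A) :
    (sc a : T p q) ∈ Ideal.span {sc x, sc y} := by
  obtain ⟨c, d, rfl⟩ := Ideal.mem_span_pair.1 (hn ▸ h)
  exact Ideal.mem_span_pair.2 ⟨sc c, sc d, by simp⟩

theorem I_le (hn : maximalIdeal A = Ideal.span {x, y}) {p q : A} :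
    Ideal.span {(sc x : T p q), sc y} ≤ maximalIdeal _ :=
  Ideal.span_le.2 (Set.insert_subset (mem_max.2 (hn ▸ Ideal.subset_span (Or.inl rfl)))
    (Set.singleton_subset_iff.2 (mem_max.2 (hn ▸ Ideal.subset_span (Or.inr rfl)))))

theorem red5 (hn : maximalIdeal A = Ideal.span {x, y}) {p q : A} :
    Ideal.span {(sc x : T p q), sc y} * maximalIdeal _ ^ 5 = maximalIdeal _ ^ 6 := by
  set I := Ideal.span {(sc x : T p q), sc y}
  set N := RingHom.ker (pr : T p q →+* A)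
  have h1 : maximalIdeal (T p q) = I + N := by
    refine le_antisymm (fun z hz => ?_) (sup_le (I_le hn) fun z hz => mem_max.2 ?_)
    · rw [show z = sc z.a + (z - sc z.a) by ring]
      refine add_mem (Ideal.mem_sup_left (sc_mem hn (mem_max.1 hz))) (Ideal.mem_sup_right ?_)
      rw [RingHom.mem_ker, map_sub]
      exact sub_self _
    · rw [show z.a = 0 from hz]
      exact zero_mem _
  have h2 : N ^ 6 = 0 := ker6
  refine le_antisymm ((Ideal.mul_mono_left (I_le hn)).trans (pow_succ' _ 5).ge) ?_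
  rw [h1, show (I + N) ^ 6 = I * ((I + N) ^ 5 + N * (I + N) ^ 4 + N ^ 2 * (I + N) ^ 3 +
    N ^ 3 * (I + N) ^ 2 + N ^ 4 * (I + N) + N ^ 5) + N ^ 6 by ring, h2, add_zero]
  have h3 : ∀ i j, N ^ i * (I + N) ^ j ≤ (I + N) ^ (i + j) := fun i j =>
    (Ideal.mul_mono_left (Ideal.pow_right_mono le_sup_right i)).trans (pow_add _ i j).ge
  refine Ideal.mul_mono_right (sup_le (sup_le (sup_le (sup_le (sup_le le_rfl ?_) (h3 2 3))
    (h3 3 2)) ?_) ?_)
  · simpa using h3 1 4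
  · simpa using h3 4 1
  · simpa using h3 5 0

theorem pow_w {p q : A} (j : ℕ) : ∀ z ∈ maximalIdeal (T p q) ^ (j + 1),
    z.a ∈ maximalIdeal A ^ (j + 1) ∧ z.w ∈ maximalIdeal A ^ j ⊔ Ideal.span {p, q} := by
  induction j with
  | zero =>
    intro z hz
    rw [zero_add, pow_one] at hz ⊢
    exact ⟨mem_max.1 hz, by simp⟩
  | succ j ih =>
    intro z hz
    rw [pow_succ'] at hz
    refine Submodule.mul_induction_on hz (fun s hs t ht => ?_)
      fun s t hs ht => ⟨add_mem hs.1 ht.1, add_mem hs.2 ht.2⟩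
    obtain ⟨h1, h2⟩ := ih t ht
    have h3 := mem_max.1 hs
    refine ⟨pow_succ' (maximalIdeal A) (j + 1) ▸ Ideal.mul_mem_mul h3 h1, ?_⟩
    rw [mul_def]
    refine add_mem (add_mem (add_mem ?_ (Ideal.mem_sup_left (Ideal.mul_mem_left _ _ h1)))
      (Ideal.mem_sup_right (Ideal.mul_mem_right _ _ (Ideal.subset_span (Or.inl rfl)))))
      (Ideal.mem_sup_right (Ideal.mul_mem_right _ _ (Ideal.subset_span (Or.inr rfl))))
    have := Ideal.mul_mem_mul h3 h2
    rw [Ideal.mul_sup, ← pow_succ'] at this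
    exact (sup_le_sup_left Ideal.mul_le_right _ : _ ≤ (_ : Ideal A)) this

theorem pow_w' {p q : A} {z : T p q} (h : z ∈ maximalIdeal (T p q) ^ 4) :
    z.w ∈ maximalIdeal A ^ 3 ⊔ Ideal.span {p, q} := (pow_w 3 z h).2

theorem U_mem {p q : A} : (U : T p q) ∈ maximalIdeal _ := mem_max.2 (zero_mem _)
theorem V_mem {p q : A} : (V : T p q) ∈ maximalIdeal _ := mem_max.2 (zero_mem _)

theorem not_red4 (hn : maximalIdeal A = Ideal.span {x, y}) (h : x ^ 3 ∉ maximalIdeal A ^ 4) :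
    Ideal.span {(sc x : T (x ^ 3) (y ^ 3)), sc y} * maximalIdeal _ ^ 4 ≠ maximalIdeal _ ^ 5 := by
  intro h1
  have hx : x ∈ maximalIdeal A := hn ▸ Ideal.subset_span (Or.inl rfl)
  have hy : y ∈ maximalIdeal A := hn ▸ Ideal.subset_span (Or.inr rfl)
  have h2 : ∀ z ∈ Ideal.span {(sc x : T (x ^ 3) (y ^ 3)), sc y} * maximalIdeal _ ^ 4,
      z.w ∈ maximalIdeal A ^ 4 := by
    intro z hz
    rw [Ideal.span_insert, Ideal.sup_mul] at hz
    obtain ⟨a', ha', b', hb', rfl⟩ := Submodule.mem_sup.1 hz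
    obtain ⟨a, ha, rfl⟩ := Ideal.mem_span_singleton_mul.1 ha'
    obtain ⟨b, hb, rfl⟩ := Ideal.mem_span_singleton_mul.1 hb'
    have h3 : maximalIdeal A ^ 3 ⊔ Ideal.span {x ^ 3, y ^ 3} ≤ maximalIdeal A ^ 3 :=
      sup_le le_rfl (Ideal.span_le.2 (Set.insert_subset (Ideal.pow_mem_pow hx 3)
        (Set.singleton_subset_iff.2 (Ideal.pow_mem_pow hy 3))))
    have h4 : a.w ∈ maximalIdeal A ^ 3 := h3 (pow_w' ha)
    have h5 : b.w ∈ maximalIdeal A ^ 3 := h3 (pow_w' hb)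
    rw [sc_mul, sc_mul, pow_succ' (maximalIdeal A) 3]
    exact add_mem (Ideal.mul_mem_mul hx h4) (Ideal.mul_mem_mul hy h5)
  have h3 := h2 _ (h1 ▸ Ideal.pow_mem_pow U_mem 5)
  rw [U5, sc_mul] at h3
  exact h (by simpa [W] using h3)

theorem not_full (hn : maximalIdeal A = Ideal.span {x, y})
    (h : x ^ 2 * y ^ 2 ∉ Ideal.span {x ^ 3, y ^ 3}) :
    ∃ s : T (x ^ 3) (y ^ 3), s ∉ maximalIdeal _ ^ 6 ∧
      ∀ z ∈ maximalIdeal _, s * z ∈ maximalIdeal _ ^ 7 := by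
  refine ⟨sc (x ^ 2 * y ^ 2) * W, fun h1 => h ?_, fun z hz => ?_⟩
  · have h2 := (pow_w 5 _ h1).2
    rw [sc_mul] at h2
    have h3 : maximalIdeal A ^ 5 ≤ Ideal.span {x ^ 3, y ^ 3} := by
      rw [hn, Ideal.span_insert, Ideal.span_insert, ← Ideal.span_singleton_pow,
        ← Ideal.span_singleton_pow]
      set a := Ideal.span {x}
      set b := Ideal.span {y}
      change (a + b) ^ 5 ≤ _
      rw [show (a + b) ^ 5 = a ^ 3 * (a ^ 2 + 5 * a * b + 10 * b ^ 2) +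
        b ^ 3 * (b ^ 2 + 5 * a * b + 10 * a ^ 2) by ring]
      exact sup_le_sup Ideal.mul_le_left Ideal.mul_le_left
    simpa [W] using sup_le h3 le_rfl h2
  · obtain ⟨c, d, h1⟩ := Ideal.mem_span_pair.1 (hn ▸ mem_max.1 hz)
    have hx := I_le hn (p := x ^ 3) (q := y ^ 3) (Ideal.subset_span (Or.inl rfl))
    have hy := I_le hn (p := x ^ 3) (q := y ^ 3) (Ideal.subset_span (Or.inr rfl))
    have e : sc (x ^ 2 * y ^ 2) * W * z = sc c * (sc y ^ 2 * U ^ 5) + sc d * (sc x ^ 2 * V ^ 5) := by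
      rw [mul_assoc, W_mul, ← h1, U5, V5]
      simp only [map_mul, map_add, map_pow]
      ring
    rw [e, show 7 = 2 + 5 from rfl, pow_add]
    exact add_mem (Ideal.mul_mem_left _ _ (Ideal.mul_mem_mul (Ideal.pow_mem_pow hy 2)
      (Ideal.pow_mem_pow U_mem 5))) (Ideal.mul_mem_left _ _ (Ideal.mul_mem_mul
      (Ideal.pow_mem_pow hx 2) (Ideal.pow_mem_pow V_mem 5)))

theorem reg (hn : maximalIdeal A = Ideal.span {x, y}) (h1 : ∀ a, x * a = 0 → a = 0)
    (h2 : ∀ a, x ∣ y * a → x ∣ a) {p q : A} :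
    RingTheory.Sequence.IsRegular (T p q) [(sc x : T p q), sc y] := by
  refine ⟨.cons ?_ ((RingTheory.Sequence.isWeaklyRegular_singleton_iff _ _).2 ?_), ?_⟩
  · rw [isSMulRegular_iff_right_eq_zero_of_smul]
    intro z hz
    rw [smul_eq_mul, sc_mul, zero_def, T.mk.injEq] at hz
    obtain ⟨_, _, _, _, _, _, _, _, _, _⟩ := hz
    ext <;> exact h1 _ ‹_›
  · rw [isSMulRegular_iff_right_eq_zero_of_smul]
    intro z hz
    obtain ⟨z, rfl⟩ := Submodule.Quotient.mk_surjective _ z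
    rw [← Submodule.Quotient.mk_smul, Submodule.Quotient.mk_eq_zero,
      Submodule.mem_smul_pointwise_iff_exists] at hz
    obtain ⟨t, -, ht⟩ := hz
    rw [smul_eq_mul, smul_eq_mul, sc_mul, sc_mul, T.mk.injEq] at ht
    obtain ⟨e0, e1, e2, e3, e4, e5, e6, e7, e8, e9⟩ := ht
    obtain ⟨a0, f0⟩ := h2 _ ⟨_, e0.symm⟩
    obtain ⟨a1, f1⟩ := h2 _ ⟨_, e1.symm⟩
    obtain ⟨a2, f2⟩ := h2 _ ⟨_, e2.symm⟩
    obtain ⟨a3, f3⟩ := h2 _ ⟨_, e3.symm⟩
    obtain ⟨a4, f4⟩ := h2 _ ⟨_, e4.symm⟩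
    obtain ⟨a5, f5⟩ := h2 _ ⟨_, e5.symm⟩
    obtain ⟨a6, f6⟩ := h2 _ ⟨_, e6.symm⟩
    obtain ⟨a7, f7⟩ := h2 _ ⟨_, e7.symm⟩
    obtain ⟨a8, f8⟩ := h2 _ ⟨_, e8.symm⟩
    obtain ⟨a9, f9⟩ := h2 _ ⟨_, e9.symm⟩
    rw [Submodule.Quotient.mk_eq_zero, Submodule.mem_smul_pointwise_iff_exists]
    refine ⟨⟨a0, a1, a2, a3, a4, a5, a6, a7, a8, a9⟩, trivial, ?_⟩
    rw [smul_eq_mul, sc_mul]
    ext <;> exact Eq.symm ‹_›
  · rw [smul_eq_mul, Ideal.mul_top, Ideal.ofList_cons, Ideal.ofList_singleton, ← Ideal.span_insert]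
    exact fun h => (maximalIdeal.isMaximal _).ne_top (top_le_iff.1 (h.le.trans (I_le hn)))

theorem dim2 [IsNoetherianRing A] (hn : maximalIdeal A = Ideal.span {x, y})
    (h1 : ∀ a, x * a = 0 → a = 0) (h2 : ∀ a, x ∣ y * a → x ∣ a) {p q : A} :
    ringKrullDim (T p q) = 2 := by
  have := ringKrullDim_add_length_eq_ringKrullDim_of_isRegular _ (reg hn h1 h2 (p := p) (q := q))
  rw [Ideal.ofList_cons, Ideal.ofList_singleton, ← Ideal.span_insert,
    dim_zero ((red5 hn).ge.trans Ideal.mul_le_left) fun h =>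
      (maximalIdeal.isMaximal _).ne_top (top_le_iff.1 (h.ge.trans (I_le hn))), zero_add] at this
  exact this.symm

open PowerSeries

theorem base : ∃ x y : ℚ⟦X⟧⟦X⟧, maximalIdeal _ = Ideal.span {x, y} ∧ (∀ a, x * a = 0 → a = 0) ∧
    (∀ a, x ∣ y * a → x ∣ a) ∧ x ^ 3 ∉ maximalIdeal _ ^ 4 ∧
    x ^ 2 * y ^ 2 ∉ Ideal.span {x ^ 3, y ^ 3} := by
  have hn : maximalIdeal ℚ⟦X⟧⟦X⟧ = Ideal.span {X, C X} := by
    refine le_antisymm (fun f hf => ?_) (Ideal.span_le.2 (Set.insert_subset ?_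
      (Set.singleton_subset_iff.2 ?_)))
    · have : constantCoeff (constantCoeff f) = 0 := by
        by_contra h
        exact hf (isUnit_iff_constantCoeff.2 (isUnit_iff_constantCoeff.2 (Ne.isUnit h)))
      obtain ⟨g, hg⟩ := X_dvd_iff.2 this
      rw [eq_X_mul_shift_add_const f, hg, map_mul]
      exact add_mem (Ideal.mul_mem_right _ _ (Ideal.subset_span (Or.inl rfl)))
        (Ideal.mul_mem_right _ _ (Ideal.subset_span (Or.inr rfl)))
    · intro h
      simpa using isUnit_iff_constantCoeff.1 h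
    · intro h
      simpa using isUnit_iff_constantCoeff.1 (isUnit_iff_constantCoeff.1 h)
  refine ⟨X, C X, hn, fun a h => X_mul_cancel (h.trans (mul_zero _).symm), fun a h => ?_,
    fun h => ?_, fun h => ?_⟩
  · rw [X_dvd_iff] at h ⊢
    simpa using h
  · have h1 := Ideal.mem_map_of_mem (PowerSeries.map (constantCoeff : ℚ⟦X⟧ →+* ℚ)) h
    rw [Ideal.map_pow, hn, Ideal.map_span, Set.image_pair, map_X, map_C, constantCoeff_X, map_zero,
      Set.pair_comm, Ideal.span_insert_zero, Ideal.span_singleton_pow, Ideal.mem_span_singleton,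
      map_pow, map_X, X_pow_dvd_iff] at h1
    simpa using h1 3 (by omega)
  · obtain ⟨c, d, h⟩ := Ideal.mem_span_pair.1 h
    have h1 := congrArg (fun f => coeff 2 (coeff 2 f)) h
    simp only [← map_pow, mul_comm c, mul_comm d, map_add, coeff_C_mul, coeff_X_pow_mul',
      coeff_C] at h1
    simp at h1

end Pool.Agent.Dao
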